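import Mathlib

/-!
# Complete biorthogonal systems by a back-and-forth argument
-/

set_option autoImplicit false

namespace Pool.Agent.X205.SMB

variable {𝕜 V W : Type*} [Field 𝕜] [AddCommGroup V] [Module 𝕜 V] [AddCommGroup W] [Module 𝕜 W]

theorem step (B : V →ₗ[𝕜] W →ₗ[𝕜] 𝕜) (hB : ∀ v, v ≠ 0 → ∃ w, B v w ≠ 0)
    (hinf : ¬ FiniteDimensional 𝕜 V) (x : ℕ → V) (f : ℕ → W) (n : ℕ)
    (hb : ∀ i < n, ∀ j < n, B (x i) (f j) = if i = j then 1 else 0) (a : V) :
    ∃ v w, B v w = 1 ∧ (∀ i < n, B v (f i) = 0) ∧ (∀ i < n, B (x i) w = 0) ∧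
      a ∈ Submodule.span 𝕜 (insert v (x '' Set.Iio n)) := by
  classical
  have h1 : ∃ a', a' ∉ Submodule.span 𝕜 (x '' Set.Iio n) ∧
      a ∈ Submodule.span 𝕜 (insert a' (x '' Set.Iio n)) := by
    by_cases ha : a ∈ Submodule.span 𝕜 (x '' Set.Iio n)
    · have h2 : ∃ a', a' ∉ Submodule.span 𝕜 (x '' Set.Iio n) := by
        by_contra hc
        push Not at hc
        apply hinf
        have h3 : Submodule.span 𝕜 (x '' Set.Iio n) = ⊤ := by
          ext y
          simp [hc y]
        refine ⟨⟨(Finset.range n).image x, ?_⟩⟩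
        rw [Finset.coe_image, Finset.coe_range]
        exact h3
      obtain ⟨a', ha'⟩ := h2
      exact ⟨a', ha', Submodule.span_mono (Set.subset_insert _ _) ha⟩
    · exact ⟨a, ha, Submodule.subset_span (Set.mem_insert _ _)⟩
  obtain ⟨a', ha', haa⟩ := h1
  set v := a' - ∑ i ∈ Finset.range n, B a' (f i) • x i with hv
  have hsum : ∑ i ∈ Finset.range n, B a' (f i) • x i ∈ Submodule.span 𝕜 (x '' Set.Iio n) :=
    Submodule.sum_mem _ fun i hi => Submodule.smul_mem _ _
      (Submodule.subset_span ⟨i, Finset.mem_range.1 hi, rfl⟩)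
  have hv0 : v ≠ 0 := by
    intro h0
    rw [hv, sub_eq_zero] at h0
    rw [h0] at ha'
    exact ha' hsum
  have hvf : ∀ i < n, B v (f i) = 0 := by
    intro i hi
    rw [hv, map_sub, LinearMap.sub_apply, map_sum, LinearMap.sum_apply]
    simp only [map_smul, LinearMap.smul_apply, smul_eq_mul]
    rw [Finset.sum_eq_single i]
    · rw [hb i hi i hi]
      simp
    · intro j hj hji
      rw [hb j (Finset.mem_range.1 hj) i hi, if_neg hji, mul_zero]
    · intro h
      exact absurd (Finset.mem_range.2 hi) h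
  obtain ⟨w0, hw0⟩ := hB v hv0
  set w1 := (B v w0)⁻¹ • w0 with hw1
  have hvw1 : B v w1 = 1 := by
    rw [hw1, map_smul, smul_eq_mul, inv_mul_cancel₀ hw0]
  refine ⟨v, w1 - ∑ i ∈ Finset.range n, B (x i) w1 • f i, ?_, hvf, ?_, ?_⟩
  · rw [map_sub, map_sum, hvw1]
    rw [Finset.sum_eq_zero, sub_zero]
    intro i hi
    rw [map_smul, hvf i (Finset.mem_range.1 hi), smul_zero]
  · intro i hi
    rw [map_sub, map_sum]
    simp only [map_smul, smul_eq_mul]
    rw [Finset.sum_eq_single i]
    · rw [hb i hi i hi]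
      simp
    · intro j hj hji
      rw [hb i hi j (Finset.mem_range.1 hj), if_neg (Ne.symm hji), mul_zero]
    · intro h
      exact absurd (Finset.mem_range.2 hi) h
  · have hle : Submodule.span 𝕜 (insert a' (x '' Set.Iio n)) ≤
        Submodule.span 𝕜 (insert v (x '' Set.Iio n)) := by
      rw [Submodule.span_le]
      rintro y (rfl | hy)
      · have : y = v + ∑ i ∈ Finset.range n, B y (f i) • x i := by
          rw [hv]
          abel
        rw [this]
        exact Submodule.add_mem _ (Submodule.subset_span (Set.mem_insert _ _))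
          (Submodule.span_mono (Set.subset_insert _ _) hsum)
      · exact Submodule.subset_span (Set.mem_insert_of_mem _ hy)
    exact hle haa

theorem exists_seq (B : V →ₗ[𝕜] W →ₗ[𝕜] 𝕜) (hB : ∀ v, v ≠ 0 → ∃ w, B v w ≠ 0)
    (hB' : ∀ w, w ≠ 0 → ∃ v, B v w ≠ 0)
    (hV : ¬ FiniteDimensional 𝕜 V) (hW : ¬ FiniteDimensional 𝕜 W) (a : ℕ → V) (b : ℕ → W) :
    ∃ (x : ℕ → V) (f : ℕ → W), (∀ i j, B (x i) (f j) = if i = j then 1 else 0) ∧
      (∀ k, a k ∈ Submodule.span 𝕜 (Set.range x)) ∧
      (∀ k, b k ∈ Submodule.span 𝕜 (Set.range f)) := by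
  classical
  have hstep : ∀ (n : ℕ) (p : ℕ → V × W), ∃ q : V × W,
      (∀ i < n, ∀ j < n, B (p i).1 (p j).2 = if i = j then 1 else 0) →
      B q.1 q.2 = 1 ∧ (∀ i < n, B q.1 (p i).2 = 0) ∧ (∀ i < n, B (p i).1 q.2 = 0) ∧
      (Even n → a (n / 2) ∈ Submodule.span 𝕜 (insert q.1 ((fun i => (p i).1) '' Set.Iio n))) ∧
      (¬ Even n → b (n / 2) ∈ Submodule.span 𝕜 (insert q.2 ((fun i => (p i).2) '' Set.Iio n))) := by
    intro n p
    by_cases hp : ∀ i < n, ∀ j < n, B (p i).1 (p j).2 = if i = j then 1 else 0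
    · by_cases hn : Even n
      · obtain ⟨v, w, h1, h2, h3, h4⟩ := step B hB hV (fun i => (p i).1) (fun i => (p i).2) n hp
          (a (n / 2))
        exact ⟨(v, w), fun _ => ⟨h1, h2, h3, fun _ => h4, fun h => absurd hn h⟩⟩
      · obtain ⟨w, v, h1, h2, h3, h4⟩ := step B.flip (by
            intro w hw
            obtain ⟨v, hv⟩ := hB' w hw
            exact ⟨v, by simpa using hv⟩) hW (fun i => (p i).2) (fun i => (p i).1) n (by
            intro i hi j hj
            rw [LinearMap.flip_apply, hp j hj i hi]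
            simp only [eq_comm]) (b (n / 2))
        exact ⟨(v, w), fun _ => ⟨h1, h3, h2, fun h => absurd h hn, fun _ => h4⟩⟩
    · exact ⟨0, fun h => absurd h hp⟩
  choose next hnext using hstep
  let s : ℕ → ℕ → V × W := fun n =>
    Nat.rec (fun _ => 0) (fun n p => Function.update p n (next n p)) n
  have hs : ∀ n, s (n + 1) = Function.update (s n) n (next n (s n)) := fun n => rfl
  have hinv : ∀ n, ∀ i < n, ∀ j < n, B (s n i).1 (s n j).2 = if i = j then 1 else 0 := by
    intro n
    induction n with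
    | zero => intro i hi; omega
    | succ n ih =>
      obtain ⟨h1, h2, h3, -, -⟩ := hnext n (s n) ih
      intro i hi j hj
      rw [hs]
      by_cases hi' : i = n
      · by_cases hj' : j = n
        · subst hi'
          subst hj'
          simpa using h1
        · subst hi'
          rw [Function.update_self, Function.update_of_ne hj', if_neg (Ne.symm hj')]
          exact h2 j (by omega)
      · by_cases hj' : j = n
        · subst hj'
          rw [Function.update_self, Function.update_of_ne hi', if_neg hi']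
          exact h3 i (by omega)
        · rw [Function.update_of_ne hi', Function.update_of_ne hj']
          exact ih i (by omega) j (by omega)
  have hstab : ∀ m i, i < m → s m i = s (i + 1) i := by
    intro m
    induction m with
    | zero => intro i hi; omega
    | succ m ih =>
      intro i hi
      by_cases h : i = m
      · subst h
        rfl
      · rw [hs, Function.update_of_ne h]
        exact ih i (by omega)
  have himg1 : ∀ n, ((fun i => (s n i).1) '' Set.Iio n) ⊆ Set.range fun i => (s (i + 1) i).1 := by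
    rintro n _ ⟨i, hi, rfl⟩
    exact ⟨i, by change (s (i + 1) i).1 = (s n i).1; rw [hstab n i hi]⟩
  have himg2 : ∀ n, ((fun i => (s n i).2) '' Set.Iio n) ⊆ Set.range fun i => (s (i + 1) i).2 := by
    rintro n _ ⟨i, hi, rfl⟩
    exact ⟨i, by change (s (i + 1) i).2 = (s n i).2; rw [hstab n i hi]⟩
  refine ⟨fun i => (s (i + 1) i).1, fun i => (s (i + 1) i).2, ?_, ?_, ?_⟩
  · intro i j
    have h := hinv (max i j + 1) i (by omega) j (by omega)
    rwa [hstab (max i j + 1) i (by omega), hstab (max i j + 1) j (by omega)] at h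
  · intro k
    obtain ⟨-, -, -, h4, -⟩ := hnext (2 * k) (s (2 * k)) (hinv _)
    have h5 := h4 (even_two_mul k)
    rw [Nat.mul_div_cancel_left k (by norm_num)] at h5
    refine Submodule.span_mono ?_ h5
    rintro y (rfl | hy)
    · exact ⟨2 * k, by simp only [hs, Function.update_self]⟩
    · exact himg1 _ hy
  · intro k
    obtain ⟨-, -, -, -, h4⟩ := hnext (2 * k + 1) (s (2 * k + 1)) (hinv _)
    have h5 := h4 (by simp)
    rw [show (2 * k + 1) / 2 = k by omega] at h5
    refine Submodule.span_mono ?_ h5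
    rintro y (rfl | hy)
    · exact ⟨2 * k + 1, by simp only [hs, Function.update_self]⟩
    · exact himg2 _ hy

end Pool.Agent.X205.SMB
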