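import Mathlib

/-!
# Uniform interpolation in the span of finitely many members of a complete sequence
-/

set_option autoImplicit false

open Filter Topology Metric

namespace Pool.Agent.X205.SMB

variable {𝕜 : Type*} [RCLike 𝕜]

theorem mem_span_Iio {V : Type*} [AddCommGroup V] [Module 𝕜 V] {v : ℕ → V} {u : V}
    (hu : u ∈ Submodule.span 𝕜 (Set.range v)) : ∃ P, u ∈ Submodule.span 𝕜 (v '' Set.Iio P) := by
  induction hu using Submodule.span_induction with
  | mem u hu =>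
    obtain ⟨i, rfl⟩ := hu
    exact ⟨i + 1, Submodule.subset_span ⟨i, by simp, rfl⟩⟩
  | zero => exact ⟨0, Submodule.zero_mem _⟩
  | add a b _ _ iha ihb =>
    obtain ⟨P, hP⟩ := iha
    obtain ⟨Q, hQ⟩ := ihb
    refine ⟨max P Q, Submodule.add_mem _ (Submodule.span_mono ?_ hP) (Submodule.span_mono ?_ hQ)⟩
    · exact Set.image_mono (Set.Iio_subset_Iio (le_max_left _ _))
    · exact Set.image_mono (Set.Iio_subset_Iio (le_max_right _ _))
  | smul c a _ iha =>
    obtain ⟨P, hP⟩ := iha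
    exact ⟨P, Submodule.smul_mem _ _ hP⟩

theorem lift_uniform {V : Type*} [NormedAddCommGroup V] [NormedSpace 𝕜 V] (v : ℕ → V)
    (φ : ℕ → V →L[𝕜] 𝕜) (hb : ∀ i j, φ i (v j) = if i = j then 1 else 0)
    (hd : Dense (Submodule.span 𝕜 (Set.range v) : Set V)) (m : ℕ) :
    ∃ P, m < P ∧ ∀ y : V, ‖y‖ ≤ 1 → ∃ z ∈ Submodule.span 𝕜 (v '' Set.Iio P), ‖z‖ ≤ 2 ∧
      ∀ i < m, φ i z = φ i y := by
  classical
  set T : V →L[𝕜] (Fin m → 𝕜) := ContinuousLinearMap.pi fun i => φ i with hT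
  set C : ℝ := ∑ i : Fin m, ‖v i‖ with hC
  have hC0 : 0 ≤ C := Finset.sum_nonneg fun i _ => norm_nonneg _
  set δ : ℝ := 1 / (1 + C * (2 + ‖T‖)) with hδ
  have hδ0 : 0 < δ := by positivity
  have hδ1 : δ + C * (2 * δ + ‖T‖ * δ) ≤ 1 := by
    have : δ + C * (2 * δ + ‖T‖ * δ) = δ * (1 + C * (2 + ‖T‖)) := by ring
    rw [this, hδ, one_div, inv_mul_cancel₀ (by positivity)]
  have htb : TotallyBounded (T '' closedBall (0 : V) 1) := by
    have h1 : Bornology.IsBounded (T '' closedBall (0 : V) 1) := by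
      rw [isBounded_iff_subset_closedBall 0]
      refine ⟨‖T‖ * 1, ?_⟩
      rintro _ ⟨y, hy, rfl⟩
      rw [mem_closedBall_zero_iff] at hy ⊢
      exact (T.le_opNorm y).trans (by gcongr)
    exact h1.isCompact_closure.totallyBounded.subset subset_closure
  obtain ⟨t, htf, htc⟩ := Metric.totallyBounded_iff.1 htb δ hδ0
  have hrep : ∀ r : Fin m → 𝕜, ∃ (P : ℕ) (u : V), u ∈ Submodule.span 𝕜 (v '' Set.Iio P) ∧
      ((∃ y : V, ‖y‖ ≤ 1 ∧ T y ∈ ball r δ) → ‖u‖ ≤ 1 + δ ∧ ‖r - T u‖ ≤ δ + ‖T‖ * δ) := by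
    intro r
    by_cases h : ∃ y : V, ‖y‖ ≤ 1 ∧ T y ∈ ball r δ
    · obtain ⟨y, hy1, hy2⟩ := h
      obtain ⟨u, hu1, hu2⟩ := Metric.mem_closure_iff.1 (hd y) δ hδ0
      obtain ⟨P, hP⟩ := mem_span_Iio hu1
      refine ⟨P, u, hP, fun _ => ⟨?_, ?_⟩⟩
      · calc ‖u‖ = ‖y - (y - u)‖ := by rw [sub_sub_cancel]
          _ ≤ ‖y‖ + ‖y - u‖ := norm_sub_le _ _
          _ ≤ 1 + δ := by
            rw [dist_eq_norm] at hu2
            linarith
      · have h1 : r - T u = (r - T y) + T (y - u) := by rw [map_sub]; abel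
        rw [h1]
        refine (norm_add_le _ _).trans (add_le_add ?_ ?_)
        · rw [mem_ball, dist_eq_norm] at hy2
          rw [norm_sub_rev]
          exact hy2.le
        · refine (T.le_opNorm _).trans ?_
          rw [dist_eq_norm] at hu2
          gcongr
    · exact ⟨0, 0, Submodule.zero_mem _, fun h' => absurd h' h⟩
  choose Q u hQ hu using hrep
  obtain ⟨P0, hP0⟩ : ∃ P0, ∀ r ∈ t, Q r ≤ P0 := by
    obtain ⟨M, hM⟩ := (htf.image Q).bddAbove
    exact ⟨M, fun r hr => hM ⟨r, hr, rfl⟩⟩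
  refine ⟨max (m + 1) P0, by omega, fun y hy => ?_⟩
  have hmem : T y ∈ T '' closedBall (0 : V) 1 := ⟨y, by simpa using hy, rfl⟩
  obtain ⟨r, hr, hyr⟩ := Set.mem_iUnion₂.1 (htc hmem)
  obtain ⟨h1, h2⟩ := hu r ⟨y, hy, hyr⟩
  set d : Fin m → 𝕜 := T y - T (u r) with hd'
  have hdn : ‖d‖ ≤ 2 * δ + ‖T‖ * δ := by
    have : d = (T y - r) + (r - T (u r)) := by rw [hd']; abel
    rw [this]
    refine (norm_add_le _ _).trans ?_
    rw [mem_ball, dist_eq_norm] at hyr
    linarith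
  refine ⟨u r + ∑ i : Fin m, d i • v i, ?_, ?_, ?_⟩
  · refine Submodule.add_mem _ (Submodule.span_mono ?_ (hQ r)) (Submodule.sum_mem _ fun i _ =>
      Submodule.smul_mem _ _ (Submodule.subset_span ⟨i, ?_, rfl⟩))
    · exact Set.image_mono (Set.Iio_subset_Iio ((hP0 r hr).trans (le_max_right _ _)))
    · have := i.2
      simp only [Set.mem_Iio]
      omega
  · have h3 : ‖∑ i : Fin m, d i • v i‖ ≤ C * (2 * δ + ‖T‖ * δ) := by
      refine (norm_sum_le _ _).trans ?_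
      rw [hC, Finset.sum_mul]
      refine Finset.sum_le_sum fun i _ => ?_
      rw [norm_smul, mul_comm]
      gcongr
      exact (norm_le_pi_norm d i).trans hdn
    calc ‖u r + ∑ i : Fin m, d i • v i‖ ≤ ‖u r‖ + ‖∑ i : Fin m, d i • v i‖ := norm_add_le _ _
      _ ≤ 2 := by linarith
  · intro i hi
    rw [map_add, map_sum]
    simp only [map_smul, smul_eq_mul]
    rw [Finset.sum_eq_single (⟨i, hi⟩ : Fin m)]
    · rw [hb, if_pos rfl, mul_one, hd']
      change φ i (u r) + (φ i y - φ i (u r)) = φ i y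
      ring
    · intro j _ hj
      rw [hb, if_neg, mul_zero]
      intro h
      apply hj
      apply Fin.ext
      exact h.symm
    · intro h
      exact absurd (Finset.mem_univ _) h

end Pool.Agent.X205.SMB
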