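import Mathlib

/-!
# The rows of a Cauchy matrix together with the unit vectors are in general position
-/

set_option autoImplicit false

open Polynomial Finset

namespace Pool.Agent.X205.SMB

variable {𝕜 : Type*} [Field 𝕜] [CharZero 𝕜]

theorem cauchy_indep (J A : Finset ℕ) (hJA : J.card ≤ A.card) (c : ℕ → 𝕜)
    (hc : ∀ a ∈ A, ∑ j ∈ J, c j / ((j : 𝕜) + a + 1) = 0) : ∀ j ∈ J, c j = 0 := by
  classical
  set Q : 𝕜[X] := ∑ j ∈ J, C (c j) * ∏ i ∈ J.erase j, (X + C ((i : 𝕜) + 1)) with hQ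
  have hpos : ∀ i a : ℕ, ((i : 𝕜) + a + 1) ≠ 0 := fun i a => by
    have : ((i + a + 1 : ℕ) : 𝕜) ≠ 0 := Nat.cast_ne_zero.2 (by omega)
    push_cast at this
    exact this
  by_cases hJ : J = ∅
  · subst hJ
    simp
  have hJc : 0 < J.card := Finset.card_pos.2 (Finset.nonempty_iff_ne_empty.2 hJ)
  have hdeg : Q.degree < (A.card : WithBot ℕ) := by
    refine lt_of_lt_of_le ?_ (Nat.cast_le.2 hJA)
    rw [hQ]
    refine lt_of_le_of_lt (degree_sum_le _ _) ?_
    rw [Finset.sup_lt_iff (WithBot.bot_lt_coe _)]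
    intro j hj
    refine lt_of_le_of_lt (degree_mul_le _ _) ?_
    have h1 : (∏ i ∈ J.erase j, (X + C ((i : 𝕜) + 1))).degree ≤ ((J.card - 1 : ℕ) : WithBot ℕ) := by
      refine (degree_prod_le _ _).trans ?_
      rw [← Finset.card_erase_of_mem hj]
      refine (Finset.sum_le_sum (g := fun _ => (1 : WithBot ℕ)) fun i _ => ?_).trans ?_
      · rw [degree_X_add_C]
      · simp
    calc (C (c j)).degree + (∏ i ∈ J.erase j, (X + C ((i : 𝕜) + 1))).degree
        ≤ 0 + ((J.card - 1 : ℕ) : WithBot ℕ) := add_le_add degree_C_le h1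
      _ = ((J.card - 1 : ℕ) : WithBot ℕ) := zero_add _
      _ < (J.card : WithBot ℕ) := by
        exact_mod_cast Nat.sub_lt hJc one_pos
  have heval : ∀ a ∈ A, Q.eval (a : 𝕜) = 0 := by
    intro a ha
    have h1 : Q.eval (a : 𝕜) = (∏ i ∈ J, ((i : 𝕜) + a + 1)) * ∑ j ∈ J, c j / ((j : 𝕜) + a + 1) := by
      rw [hQ, eval_finsetSum, Finset.mul_sum]
      refine Finset.sum_congr rfl fun j hj => ?_
      rw [eval_mul, eval_C, eval_prod, ← Finset.mul_prod_erase J _ hj]
      have h2 : ∏ i ∈ J.erase j, (X + C ((i : 𝕜) + 1)).eval (a : 𝕜)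
          = ∏ i ∈ J.erase j, ((i : 𝕜) + a + 1) := by
        refine Finset.prod_congr rfl fun i _ => ?_
        simp only [eval_add, eval_X, eval_C]
        ring
      rw [h2]
      field_simp [hpos j a]
    rw [h1, hc a ha, mul_zero]
  have hQ0 : Q = 0 := Polynomial.eq_zero_of_degree_lt_of_eval_index_eq_zero
    (v := fun a : ℕ => (a : 𝕜)) (s := A) (Nat.cast_injective.injOn) hdeg heval
  intro j hj
  have h1 : Q.eval (-((j : 𝕜) + 1)) = 0 := by rw [hQ0, eval_zero]
  rw [hQ, eval_finsetSum, Finset.sum_eq_single j] at h1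
  · rw [eval_mul, eval_C, eval_prod, mul_eq_zero] at h1
    rcases h1 with h1 | h1
    · exact h1
    · exfalso
      rw [Finset.prod_eq_zero_iff] at h1
      obtain ⟨i, hi, h2⟩ := h1
      simp only [eval_add, eval_X, eval_C] at h2
      have h3 : (i : 𝕜) = j := by linear_combination h2
      exact (Finset.mem_erase.1 hi).1 (Nat.cast_injective h3)
  · intro i hi hij
    rw [eval_mul, eval_prod, Finset.prod_eq_zero (Finset.mem_erase.2 ⟨Ne.symm hij, hj⟩), mul_zero]
    simp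
  · intro h
    exact absurd hj h

/-- coefficients: unit vectors below `P`, Cauchy rows from `P` on. -/
noncomputable def W (𝕜 : Type*) [Field 𝕜] (P j a : ℕ) : 𝕜 :=
  if j < P then (if j = a then 1 else 0) else 1 / ((j : 𝕜) + a + 1)

theorem W_indep (N P : ℕ) (B : Finset ℕ) (hBN : ∀ j ∈ B, N ≤ j) (hB : B.card ≤ P - N)
    (c : ℕ → 𝕜) (hc : ∀ a ∈ Ico N P, ∑ j ∈ B, c j * W 𝕜 P j a = 0) : ∀ j ∈ B, c j = 0 := by
  classical
  set B1 := B.filter (· < P) with hB1
  set B2 := B.filter (fun j => ¬ j < P) with hB2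
  have hsplit : ∀ a, ∑ j ∈ B, c j * W 𝕜 P j a
      = ∑ j ∈ B1, c j * W 𝕜 P j a + ∑ j ∈ B2, c j * W 𝕜 P j a := fun a =>
    (Finset.sum_filter_add_sum_filter_not B _ _).symm
  have hs2 : ∀ a, ∑ j ∈ B2, c j * W 𝕜 P j a = ∑ j ∈ B2, c j / ((j : 𝕜) + a + 1) := by
    intro a
    refine Finset.sum_congr rfl fun j hj => ?_
    rw [W, if_neg (Finset.mem_filter.1 hj).2]
    ring
  have hs1 : ∀ a, ∑ j ∈ B1, c j * W 𝕜 P j a = if a ∈ B1 then c a else 0 := by
    intro a
    have : ∀ j ∈ B1, c j * W 𝕜 P j a = if j = a then c j else 0 := by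
      intro j hj
      rw [W, if_pos (Finset.mem_filter.1 hj).2]
      split_ifs <;> simp
    rw [Finset.sum_congr rfl this, Finset.sum_ite_eq']
  have hcard : B1.card + B2.card = B.card := Finset.card_filter_add_card_filter_not _
  have hB1sub : B1 ⊆ Ico N P := by
    intro j hj
    rw [Finset.mem_Ico]
    exact ⟨hBN j (Finset.mem_filter.1 hj).1, (Finset.mem_filter.1 hj).2⟩
  have h2 : ∀ j ∈ B2, c j = 0 := by
    refine cauchy_indep B2 (Ico N P \ B1) ?_ c ?_
    · rw [Finset.card_sdiff_of_subset hB1sub, Nat.card_Ico]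
      omega
    · intro a ha
      rw [Finset.mem_sdiff] at ha
      have := hc a ha.1
      rw [hsplit, hs1, if_neg ha.2, zero_add, hs2] at this
      exact this
  intro j hj
  by_cases hjP : j < P
  · have hjB1 : j ∈ B1 := Finset.mem_filter.2 ⟨hj, hjP⟩
    have := hc j (hB1sub hjB1)
    rw [hsplit, hs1, if_pos hjB1] at this
    rwa [Finset.sum_eq_zero (s := B2), add_zero] at this
    intro i hi
    rw [h2 i hi, zero_mul]
  · exact h2 j (Finset.mem_filter.2 ⟨hj, hjP⟩)

/-- Dual vectors. -/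
theorem W_dual (N P : ℕ) (B : Finset ℕ) (hBN : ∀ j ∈ B, N ≤ j) (hB : B.card ≤ P - N) :
    ∃ h : ℕ → ℕ → 𝕜, ∀ i ∈ B, ∀ j ∈ B,
      ∑ a ∈ Ico N P, W 𝕜 P i a * h j a = if i = j then 1 else 0 := by
  classical
  let L : (B → 𝕜) →ₗ[𝕜] (Ico N P → 𝕜) :=
    ∑ j : B, (LinearMap.proj j).smulRight (fun a : Ico N P => W 𝕜 P j a)
  have hL : ∀ c a, L c a = ∑ j : B, c j * W 𝕜 P j a := by
    intro c a
    simp [L, LinearMap.sum_apply]
  have hinj : Function.Injective L := by
    rw [← LinearMap.ker_eq_bot, LinearMap.ker_eq_bot']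
    intro c hc
    let c' : ℕ → 𝕜 := fun j => if hj : j ∈ B then c ⟨j, hj⟩ else 0
    have h1 := W_indep N P B hBN hB c' (by
      intro a ha
      have := congrFun hc ⟨a, ha⟩
      rw [hL] at this
      rw [← Finset.sum_coe_sort B]
      refine Eq.trans (Finset.sum_congr rfl fun j _ => ?_) this
      simp [c'])
    funext j
    have := h1 j j.2
    simpa [c'] using this
  obtain ⟨G, hG⟩ := LinearMap.exists_leftInverse_of_injective L (LinearMap.ker_eq_bot.2 hinj)
  refine ⟨fun j a => if hj : j ∈ B then (if ha : a ∈ Ico N P then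
    G (Pi.single ⟨a, ha⟩ 1) ⟨j, hj⟩ else 0) else 0, fun i hi j hj => ?_⟩
  have h1 : L (Pi.single ⟨i, hi⟩ 1) = ∑ a : Ico N P, W 𝕜 P i a • (Pi.single a (1 : 𝕜) : Ico N P → 𝕜) := by
    funext a
    rw [hL, Finset.sum_apply, Finset.sum_eq_single (⟨i, hi⟩ : B)]
    · rw [Finset.sum_eq_single a]
      · simp
      · intro b _ hb
        simp [Pi.single_apply, Ne.symm hb]
      · intro h
        exact absurd (Finset.mem_univ _) h
    · intro b _ hb
      rw [Pi.single_eq_of_ne hb, zero_mul]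
    · intro h
      exact absurd (Finset.mem_univ _) h
  have h2 : G (L (Pi.single ⟨i, hi⟩ 1)) ⟨j, hj⟩ = if i = j then 1 else 0 := by
    have := LinearMap.congr_fun hG (Pi.single ⟨i, hi⟩ 1)
    rw [LinearMap.comp_apply] at this
    rw [this, LinearMap.id_apply, Pi.single_apply]
    simp only [Subtype.mk.injEq, eq_comm]
  rw [h1, map_sum, Finset.sum_apply] at h2
  rw [← h2, ← Finset.sum_coe_sort (Ico N P)]
  refine Finset.sum_congr rfl fun a _ => ?_
  simp [hj]

/-- At least `P - N` rows span. -/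
theorem W_span (N P : ℕ) (B : Finset ℕ) (hBN : ∀ j ∈ B, N ≤ j) (hB : P - N ≤ B.card) :
    ∃ c : ℕ → ℕ → 𝕜, ∀ a ∈ Ico N P, ∀ b ∈ Ico N P,
      ∑ j ∈ B, c a j * W 𝕜 P j b = if a = b then 1 else 0 := by
  classical
  obtain ⟨B', hB'B, hB'c⟩ := Finset.exists_subset_card_eq hB
  let L : (B' → 𝕜) →ₗ[𝕜] (Ico N P → 𝕜) :=
    ∑ j : B', (LinearMap.proj j).smulRight (fun a : Ico N P => W 𝕜 P j a)
  have hL : ∀ c a, L c a = ∑ j : B', c j * W 𝕜 P j a := by
    intro c a
    simp [L, LinearMap.sum_apply]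
  have hinj : Function.Injective L := by
    rw [← LinearMap.ker_eq_bot, LinearMap.ker_eq_bot']
    intro c hc
    let c' : ℕ → 𝕜 := fun j => if hj : j ∈ B' then c ⟨j, hj⟩ else 0
    have h1 := W_indep N P B' (fun j hj => hBN j (hB'B hj)) hB'c.le c' (by
      intro a ha
      have := congrFun hc ⟨a, ha⟩
      rw [hL] at this
      rw [← Finset.sum_coe_sort B']
      refine Eq.trans (Finset.sum_congr rfl fun j _ => ?_) this
      simp [c'])
    funext j
    have := h1 j j.2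
    simpa [c'] using this
  have hsurj : Function.Surjective L := by
    refine (LinearMap.injective_iff_surjective_of_finrank_eq_finrank ?_).1 hinj
    rw [Module.finrank_fintype_fun_eq_card, Module.finrank_fintype_fun_eq_card, Fintype.card_coe,
      Fintype.card_coe, hB'c, Nat.card_Ico]
  have h1 : ∀ a : Ico N P, ∃ c : B' → 𝕜, L c = Pi.single a 1 := fun a => hsurj _
  choose c hc using h1
  refine ⟨fun a j => if ha : a ∈ Ico N P then (if hj : j ∈ B' then c ⟨a, ha⟩ ⟨j, hj⟩ else 0)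
    else 0, fun a ha b hb => ?_⟩
  have h2 := congrFun (hc ⟨a, ha⟩) ⟨b, hb⟩
  rw [hL, Pi.single_apply] at h2
  simp only [Subtype.mk.injEq] at h2
  have h3 : ∑ j ∈ B, (if ha : a ∈ Ico N P then (if hj : j ∈ B' then c ⟨a, ha⟩ ⟨j, hj⟩ else 0)
      else 0) * W 𝕜 P j b = ∑ j ∈ B', (if ha : a ∈ Ico N P then
        (if hj : j ∈ B' then c ⟨a, ha⟩ ⟨j, hj⟩ else 0) else 0) * W 𝕜 P j b := by
    refine (Finset.sum_subset hB'B fun j _ hj => ?_).symm
    simp [hj]
  rw [h3, ← Finset.sum_coe_sort B']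
  rw [show (if a = b then (1 : 𝕜) else 0) = if b = a then 1 else 0 by simp only [eq_comm], ← h2]
  refine Finset.sum_congr rfl fun j _ => ?_
  rw [dif_pos ha]
  simp

end Pool.Agent.X205.SMB
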