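import Mathlib
import Pool.Agent.X205.SMB.Ball
import Pool.Agent.X205.SMB.Cauchy
import Pool.Agent.Helper31.Helly

/-!
# One block of the perturbation
-/

set_option autoImplicit false

open Filter Topology Metric Finset

namespace Pool.Agent.X205.SMB

variable {𝕜 E : Type*} [RCLike 𝕜] [NormedAddCommGroup E] [NormedSpace 𝕜 E]

/-- the unperturbed combination -/
noncomputable def wv (f : ℕ → StrongDual 𝕜 E) (N P j : ℕ) : StrongDual 𝕜 E :=
  ∑ a ∈ Ico N P, W 𝕜 P j a • f a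

/-- the new functionals of the block -/
noncomputable def ev (f : ℕ → StrongDual 𝕜 E) (N P : ℕ) (η : ℝ) (j : ℕ) : StrongDual 𝕜 E :=
  wv f N P j + (if j < P then 0 else (η : 𝕜) • f j)

theorem z_smul (v : StrongDual 𝕜 E) : (0 : 𝕜) • v = 0 := by
  ext y
  exact zero_mul (v y)

theorem a_smul (a b : 𝕜) (v : StrongDual 𝕜 E) : (a + b) • v = a • v + b • v := by
  ext y
  exact add_mul a b (v y)

theorem s_smul {ι : Type*} (S : Finset ι) (c : ι → 𝕜) (v : StrongDual 𝕜 E) :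
    (∑ i ∈ S, c i) • v = ∑ i ∈ S, c i • v := by
  ext y
  rw [_root_.sum_apply]
  exact Finset.sum_mul S c (v y)

theorem span_expand {x : ℕ → E} {f : ℕ → StrongDual 𝕜 E}
    (hb : ∀ i j, f i (x j) = if i = j then 1 else 0) (S : Finset ℕ) {v : StrongDual 𝕜 E}
    (hv : v ∈ Submodule.span 𝕜 (f '' (S : Set ℕ))) : v = ∑ a ∈ S, v (x a) • f a := by
  classical
  induction hv using Submodule.span_induction with
  | mem v hv =>
    obtain ⟨i, hi, rfl⟩ := hv
    rw [Finset.sum_eq_single i]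
    · rw [hb, if_pos rfl, one_smul]
    · intro j _ hj
      rw [hb, if_neg (Ne.symm hj), z_smul]
    · intro h
      exact absurd hi h
  | zero => exact (Finset.sum_eq_zero fun i _ => z_smul _).symm
  | add a b _ _ iha ihb =>
    conv_lhs => rw [iha, ihb]
    rw [← Finset.sum_add_distrib]
    exact Finset.sum_congr rfl fun i _ => by rw [add_apply, a_smul]
  | smul c a _ iha =>
    conv_lhs => rw [iha]
    rw [Finset.smul_sum]
    exact Finset.sum_congr rfl fun i _ => by rw [smul_apply, smul_eq_mul, mul_smul]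

theorem wv_apply (f : ℕ → StrongDual 𝕜 E) (N P j : ℕ) (u : E) :
    wv f N P j u = ∑ a ∈ Ico N P, W 𝕜 P j a * f a u := by
  rw [wv, _root_.sum_apply]
  rfl

/-- the case of many indices -/
theorem many {x : ℕ → E} {f : ℕ → StrongDual 𝕜 E}
    (hb : ∀ i j, f i (x j) = if i = j then 1 else 0) (N P : ℕ) (B : Finset ℕ)
    (hBN : ∀ j ∈ B, N ≤ j) (hB : P - N ≤ B.card) :
    ∃ K : ℝ, 0 ≤ K ∧ ∀ η : ℝ, 0 < η → ∀ v ∈ Submodule.span 𝕜 (f '' ((Ico N P : Finset ℕ) : Set ℕ)),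
      ∃ v' ∈ Submodule.span 𝕜 (ev f N P η '' (B : Set ℕ)), ‖v - v'‖ ≤ η * K * ‖v‖ := by
  classical
  obtain ⟨c, hc⟩ := W_span (𝕜 := 𝕜) N P B hBN hB
  refine ⟨∑ a ∈ Ico N P, ∑ j ∈ B, ‖x a‖ * (‖c a j‖ * ‖f j‖), by positivity, fun η hη v hv => ?_⟩
  refine ⟨∑ a ∈ Ico N P, v (x a) • ∑ j ∈ B, c a j • ev f N P η j, ?_, ?_⟩
  · refine Submodule.sum_mem _ fun a _ => Submodule.smul_mem _ _ (Submodule.sum_mem _ fun j hj =>
      Submodule.smul_mem _ _ (Submodule.subset_span ⟨j, hj, rfl⟩))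
  · have h1 : ∀ a ∈ Ico N P, f a - ∑ j ∈ B, c a j • ev f N P η j
        = - ∑ j ∈ B, c a j • (if j < P then (0 : StrongDual 𝕜 E) else (η : 𝕜) • f j) := by
      intro a ha
      have h2 : ∑ j ∈ B, c a j • wv f N P j = f a := by
        calc ∑ j ∈ B, c a j • wv f N P j
            = ∑ j ∈ B, ∑ b ∈ Ico N P, (c a j * W 𝕜 P j b) • f b := by
              refine Finset.sum_congr rfl fun j _ => ?_
              rw [wv, Finset.smul_sum]
              exact Finset.sum_congr rfl fun b _ => by rw [smul_smul]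
          _ = ∑ b ∈ Ico N P, (∑ j ∈ B, c a j * W 𝕜 P j b) • f b := by
              rw [Finset.sum_comm]
              exact Finset.sum_congr rfl fun b _ => by rw [s_smul]
          _ = ∑ b ∈ Ico N P, (if a = b then (1 : 𝕜) else 0) • f b :=
              Finset.sum_congr rfl fun b hb' => by rw [hc a ha b hb']
          _ = f a := by
              rw [Finset.sum_eq_single a]
              · rw [if_pos rfl, one_smul]
              · intro b _ hba
                rw [if_neg (Ne.symm hba), z_smul]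
              · intro h
                exact absurd ha h
      have h3 : ∑ j ∈ B, c a j • ev f N P η j = f a +
          ∑ j ∈ B, c a j • (if j < P then (0 : StrongDual 𝕜 E) else (η : 𝕜) • f j) := by
        rw [← h2, ← Finset.sum_add_distrib]
        exact Finset.sum_congr rfl fun j _ => by rw [ev, smul_add]
      rw [h3]
      abel
    have h4 : v - ∑ a ∈ Ico N P, v (x a) • ∑ j ∈ B, c a j • ev f N P η j
        = ∑ a ∈ Ico N P, v (x a) • (- ∑ j ∈ B, c a j •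
          (if j < P then (0 : StrongDual 𝕜 E) else (η : 𝕜) • f j)) := by
      conv_lhs => rw [span_expand hb _ hv]
      rw [← Finset.sum_sub_distrib]
      refine Finset.sum_congr rfl fun a ha => ?_
      rw [← h1 a ha, smul_sub]
      congr 2
      rw [← span_expand hb _ hv]
    rw [h4]
    calc ‖∑ a ∈ Ico N P, v (x a) • (- ∑ j ∈ B, c a j •
          (if j < P then (0 : StrongDual 𝕜 E) else (η : 𝕜) • f j))‖
        ≤ ∑ a ∈ Ico N P, ‖v‖ * ‖x a‖ * ∑ j ∈ B, ‖c a j‖ * (η * ‖f j‖) := by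
          refine (norm_sum_le _ _).trans (Finset.sum_le_sum fun a _ => ?_)
          rw [norm_smul, norm_neg]
          refine mul_le_mul (v.le_opNorm _) ?_ (norm_nonneg _) (by positivity)
          refine (norm_sum_le _ _).trans (Finset.sum_le_sum fun j _ => ?_)
          rw [norm_smul]
          refine mul_le_mul_of_nonneg_left ?_ (norm_nonneg _)
          split_ifs
          · rw [norm_zero]
            positivity
          · rw [norm_smul, RCLike.norm_ofReal, abs_of_pos hη]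
      _ = η * (∑ a ∈ Ico N P, ∑ j ∈ B, ‖x a‖ * (‖c a j‖ * ‖f j‖)) * ‖v‖ := by
          rw [Finset.mul_sum, Finset.sum_mul]
          refine Finset.sum_congr rfl fun a _ => ?_
          rw [Finset.mul_sum, Finset.mul_sum, Finset.sum_mul]
          refine Finset.sum_congr rfl fun j _ => ?_
          ring

/-- the case of few indices -/
theorem few {x : ℕ → E} {f : ℕ → StrongDual 𝕜 E}
    (hb : ∀ i j, f i (x j) = if i = j then 1 else 0) (N P N' : ℕ) (hNP : N < P) (hPN : P < N')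
    (hN' : ∀ y : E, ‖y‖ ≤ 1 → ∃ z ∈ Submodule.span 𝕜 (x '' Set.Iio N'), ‖z‖ ≤ 2 ∧
      ∀ i < P, f i z = f i y) (B : Finset ℕ)
    (hBN : ∀ j ∈ B, N ≤ j) (hB : B.card ≤ P - N) :
    ∃ K : ℝ, 0 ≤ K ∧ ∀ η : ℝ, 0 < η → η * K ≤ 1 → ∀ g : StrongDual 𝕜 (StrongDual 𝕜 E), ‖g‖ ≤ 1 →
      (∀ j ∈ B, g (ev f N P η j) = 0) → ∃ u ∈ Submodule.span 𝕜 (x '' Set.Iio N'), ‖u‖ ≤ 4 ∧
        (∀ i < N, f i u = g (f i)) ∧ ∀ j ∈ B, ev f N P η j u = 0 := by
  classical
  obtain ⟨h, hh⟩ := W_dual (𝕜 := 𝕜) N P B hBN hB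
  set hv : ℕ → E := fun j => ∑ a ∈ Ico N P, h j a • x a with hhv
  have hfv : ∀ i j, f i (hv j) = if i ∈ Ico N P then h j i else 0 := by
    intro i j
    rw [hhv]
    simp only [map_sum, map_smul, smul_eq_mul, hb, mul_ite, mul_one, mul_zero]
    rw [Finset.sum_ite_eq]
  have hwv : ∀ i ∈ B, ∀ j ∈ B, wv f N P i (hv j) = if i = j then 1 else 0 := by
    intro i hi j hj
    rw [wv_apply, ← hh i hi j hj]
    refine Finset.sum_congr rfl fun a ha => ?_
    rw [hfv, if_pos ha]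
  have hevv : ∀ η : ℝ, ∀ i ∈ B, ∀ j ∈ B, ev f N P η i (hv j) = if i = j then 1 else 0 := by
    intro η i hi j hj
    rw [ev, add_apply, hwv i hi j hj]
    by_cases hiP : i < P
    · rw [if_pos hiP, zero_apply, add_zero]
    · have h3 : i ∉ Ico N P := by
        rw [Finset.mem_Ico]
        omega
      rw [if_neg hiP, smul_apply, hfv, if_neg h3, smul_eq_mul, mul_zero, add_zero]
  refine ⟨∑ j ∈ B, 4 * ‖f j‖ * ‖hv j‖, by positivity, fun η hη hηK g hg hgB => ?_⟩
  obtain ⟨e, he1, he2⟩ := Pool.Agent.Helper31.Helly.helly (fun i : Fin P => f i) g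
    (r := 3 / 2) (by linarith)
  obtain ⟨z, hz1, hz2, hz3⟩ := hN' (((2 / 3 : ℝ) : 𝕜) • e) (by
    rw [norm_smul, RCLike.norm_ofReal, abs_of_pos (by norm_num)]
    linarith)
  set u0 : E := ((3 / 2 : ℝ) : 𝕜) • z with hu0
  have hu0n : ‖u0‖ ≤ 3 := by
    rw [hu0, norm_smul, RCLike.norm_ofReal, abs_of_pos (by norm_num)]
    linarith
  have hu0f : ∀ i < P, f i u0 = g (f i) := by
    intro i hi
    rw [hu0, map_smul, hz3 i hi, map_smul, smul_smul, ← he2 ⟨i, hi⟩]
    rw [← RCLike.ofReal_mul]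
    norm_num
  have hev0 : ∀ j ∈ B, ev f N P η j u0 = if j < P then 0 else (η : 𝕜) * (f j u0 - g (f j)) := by
    intro j hj
    have h1 : wv f N P j u0 = g (wv f N P j) := by
      rw [wv_apply, wv, map_sum]
      refine Finset.sum_congr rfl fun a ha => ?_
      rw [hu0f a (Finset.mem_Ico.1 ha).2, ContinuousLinearMap.map_smul, smul_eq_mul]
    have h2 := hgB j hj
    rw [ev, map_add] at h2
    rw [ev, add_apply, h1]
    by_cases hjP : j < P
    · rw [if_pos hjP, map_zero, add_zero] at h2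
      rw [if_pos hjP, if_pos hjP, h2, zero_apply, add_zero]
    · rw [if_neg hjP, map_smul, smul_eq_mul] at h2
      rw [if_neg hjP, if_neg hjP, smul_apply, smul_eq_mul]
      linear_combination h2
  have hev0n : ∀ j ∈ B, ‖ev f N P η j u0‖ ≤ η * (4 * ‖f j‖) := by
    intro j hj
    rw [hev0 j hj]
    split_ifs
    · rw [norm_zero]
      positivity
    · rw [norm_mul, RCLike.norm_ofReal, abs_of_pos hη]
      refine mul_le_mul_of_nonneg_left ?_ hη.le
      have h1 : ‖f j u0‖ ≤ ‖f j‖ * 3 := ((f j).le_opNorm _).trans (by gcongr)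
      have h2 : ‖g (f j)‖ ≤ 1 * ‖f j‖ := (g.le_opNorm _).trans (by gcongr)
      calc ‖f j u0 - g (f j)‖ ≤ ‖f j u0‖ + ‖g (f j)‖ := norm_sub_le _ _
        _ ≤ 4 * ‖f j‖ := by linarith
  refine ⟨u0 - ∑ j ∈ B, ev f N P η j u0 • hv j, ?_, ?_, ?_, ?_⟩
  · refine Submodule.sub_mem _ (Submodule.smul_mem _ _ hz1) (Submodule.sum_mem _ fun j _ =>
      Submodule.smul_mem _ _ (Submodule.sum_mem _ fun a ha =>
      Submodule.smul_mem _ _ (Submodule.subset_span ⟨a, ?_, rfl⟩)))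
    rw [Finset.mem_Ico] at ha
    simp only [Set.mem_Iio]
    omega
  · have h1 : ‖∑ j ∈ B, ev f N P η j u0 • hv j‖ ≤ η * ∑ j ∈ B, 4 * ‖f j‖ * ‖hv j‖ := by
      rw [Finset.mul_sum]
      refine (norm_sum_le _ _).trans (Finset.sum_le_sum fun j hj => ?_)
      rw [norm_smul, ← mul_assoc]
      exact mul_le_mul_of_nonneg_right (hev0n j hj) (norm_nonneg _)
    calc ‖u0 - ∑ j ∈ B, ev f N P η j u0 • hv j‖
        ≤ ‖u0‖ + ‖∑ j ∈ B, ev f N P η j u0 • hv j‖ := norm_sub_le _ _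
      _ ≤ 4 := by linarith
  · intro i hi
    rw [map_sub, map_sum, hu0f i (by omega)]
    rw [Finset.sum_eq_zero, sub_zero]
    intro j _
    rw [map_smul, hfv, if_neg, smul_zero]
    rw [Finset.mem_Ico]
    omega
  · intro i hi
    rw [map_sub, map_sum]
    simp only [map_smul, smul_eq_mul]
    rw [Finset.sum_eq_single i]
    · rw [hevv η i hi i hi, if_pos rfl, mul_one, sub_self]
    · intro j hj hji
      rw [hevv η i hi j hj, if_neg (Ne.symm hji), mul_zero]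
    · intro h
      exact absurd hi h

/-- The block `[N, N')` with first part `[N, P)` is good. -/
structure Good (x : ℕ → E) (f : ℕ → StrongDual 𝕜 E) (N P N' : ℕ) (η ε : ℝ) : Prop where
  hNP : N < P
  hPN : P < N'
  hη : 0 < η
  c1 : ∀ y : StrongDual 𝕜 E, ‖y‖ ≤ 1 → ∃ z ∈ Submodule.span 𝕜 (f '' Set.Iio P), ‖z‖ ≤ 2 ∧
    ∀ i < N, z (x i) = y (x i)
  c2 : ∀ B : Finset ℕ, B ⊆ Ico N N' → P - N ≤ B.card →
    ∀ v ∈ Submodule.span 𝕜 (f '' ((Ico N P : Finset ℕ) : Set ℕ)),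
      ∃ v' ∈ Submodule.span 𝕜 (ev f N P η '' (B : Set ℕ)), ‖v - v'‖ ≤ ε * ‖v‖
  c3 : ∀ B : Finset ℕ, B ⊆ Ico N N' → B.card < P - N →
    ∀ g : StrongDual 𝕜 (StrongDual 𝕜 E), ‖g‖ ≤ 1 →
      (∀ j ∈ B, g (ev f N P η j) = 0) → ∃ u ∈ Submodule.span 𝕜 (x '' Set.Iio N'), ‖u‖ ≤ 4 ∧
        (∀ i < N, f i u = g (f i)) ∧ ∀ j ∈ B, ev f N P η j u = 0

theorem exists_good {x : ℕ → E} {f : ℕ → StrongDual 𝕜 E}
    (hb : ∀ i j, f i (x j) = if i = j then 1 else 0)
    (hdx : Dense (Submodule.span 𝕜 (Set.range x) : Set E))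
    (hdf : Dense (Submodule.span 𝕜 (Set.range f) : Set (StrongDual 𝕜 E)))
    (N : ℕ) (ε : ℝ) (hε : 0 < ε) : ∃ (P N' : ℕ) (η : ℝ), Good x f N P N' η ε := by
  classical
  obtain ⟨P, hP, hP2⟩ := lift_uniform f (fun i => ContinuousLinearMap.apply 𝕜 𝕜 (x i)) (by
    intro i j
    rw [ContinuousLinearMap.apply_apply, hb]
    simp only [eq_comm]) hdf N
  obtain ⟨N', hN', hN2⟩ := lift_uniform x f hb hdx P
  have hK : ∀ B : Finset ℕ, ∃ K : ℝ, 0 ≤ K ∧ (B ⊆ Ico N N' → ∀ η : ℝ, 0 < η → η * K ≤ min ε 1 →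
      (P - N ≤ B.card → ∀ v ∈ Submodule.span 𝕜 (f '' ((Ico N P : Finset ℕ) : Set ℕ)),
        ∃ v' ∈ Submodule.span 𝕜 (ev f N P η '' (B : Set ℕ)), ‖v - v'‖ ≤ ε * ‖v‖) ∧
      (B.card < P - N → ∀ g : StrongDual 𝕜 (StrongDual 𝕜 E), ‖g‖ ≤ 1 →
        (∀ j ∈ B, g (ev f N P η j) = 0) → ∃ u ∈ Submodule.span 𝕜 (x '' Set.Iio N'), ‖u‖ ≤ 4 ∧
          (∀ i < N, f i u = g (f i)) ∧ ∀ j ∈ B, ev f N P η j u = 0)) := by
    intro B
    by_cases hBs : B ⊆ Ico N N'
    · have hBN : ∀ j ∈ B, N ≤ j := fun j hj => (Finset.mem_Ico.1 (hBs hj)).1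
      by_cases hBc : P - N ≤ B.card
      · obtain ⟨K, hK0, hK⟩ := many (x := x) (f := f) hb N P B hBN hBc
        refine ⟨K, hK0, fun _ η hη hηK => ⟨fun _ v hv => ?_, fun h => by omega⟩⟩
        obtain ⟨v', hv', hv2⟩ := hK η hη v hv
        exact ⟨v', hv', hv2.trans (mul_le_mul_of_nonneg_right (hηK.trans (min_le_left _ _))
          (norm_nonneg _))⟩
      · obtain ⟨K, hK0, hK⟩ := few (x := x) (f := f) hb N P N' hP hN' hN2 B hBN (by omega)
        exact ⟨K, hK0, fun _ η hη hηK => ⟨fun h => by omega, fun _ g hg hgB =>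
          hK η hη (hηK.trans (min_le_right _ _)) g hg hgB⟩⟩
    · exact ⟨0, le_rfl, fun h => absurd h hBs⟩
  choose K hK0 hK using hK
  set M : ℝ := ∑ B ∈ (Ico N N').powerset, K B with hM
  have hM0 : 0 ≤ M := Finset.sum_nonneg fun B _ => hK0 B
  have hm : 0 < min ε 1 := lt_min hε one_pos
  set η : ℝ := min ε 1 / (1 + M) with hη
  have hη0 : 0 < η := by positivity
  have hηK : ∀ B ⊆ Ico N N', η * K B ≤ min ε 1 := by
    intro B hB
    have h1 : K B ≤ 1 + M := by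
      have := Finset.single_le_sum (f := K) (fun B _ => hK0 B) (Finset.mem_powerset.2 hB)
      linarith
    calc η * K B ≤ η * (1 + M) := by gcongr
      _ = min ε 1 := by rw [hη]; field_simp
  refine ⟨P, N', η, ⟨hP, hN', hη0, ?_, ?_, ?_⟩⟩
  · intro y hy
    obtain ⟨z, hz1, hz2, hz3⟩ := hP2 y hy
    exact ⟨z, hz1, hz2, fun i hi => hz3 i hi⟩
  · intro B hB hBc v hv
    exact (hK B hB η hη0 (hηK B hB)).1 hBc v hv
  · intro B hB hBc g hg hgB
    exact (hK B hB η hη0 (hηK B hB)).2 hBc g hg hgB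

end Pool.Agent.X205.SMB
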