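import Mathlib
import Pool.Agent.X205.SMB.Bio
import Pool.Agent.X205.SMB.Block

/-!
# The perturbed system
-/

set_option autoImplicit false

open Filter Topology Metric Finset TopologicalSpace

namespace Pool.Agent.X205.SMB

variable {𝕜 E : Type*} [RCLike 𝕜] [NormedAddCommGroup E] [NormedSpace 𝕜 E]

/-- Hahn-Banach -/
theorem hb_sep {X : Type*} [NormedAddCommGroup X] [NormedSpace 𝕜 X] (M : Submodule 𝕜 X) (w : X)
    (d : ℝ) (hd : ∀ s ∈ M, d ≤ ‖w - s‖) :
    ∃ g : StrongDual 𝕜 X, ‖g‖ ≤ 1 ∧ (∀ s ∈ M, g s = 0) ∧ d ≤ ‖g w‖ := by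
  set M' : Submodule 𝕜 X := M.topologicalClosure with hM'
  have hcl : IsClosed (M' : Set X) := M.isClosed_topologicalClosure
  have hd' : ∀ s ∈ (M' : Set X), d ≤ ‖w - s‖ := by
    intro s hs
    have h1 : IsClosed {s : X | d ≤ ‖w - s‖} := isClosed_le continuous_const (by fun_prop)
    exact (closure_minimal (fun s hs => hd s hs) h1) hs
  obtain ⟨g, hg1, hg2⟩ := exists_dual_vector'' 𝕜 (M'.mkQ w)
  refine ⟨g.comp M'.mkQL, ?_, ?_, ?_⟩
  · refine ContinuousLinearMap.opNorm_le_bound _ zero_le_one fun y => ?_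
    calc ‖g (M'.mkQ y)‖ ≤ ‖g‖ * ‖M'.mkQ y‖ := g.le_opNorm _
      _ ≤ 1 * ‖y‖ := mul_le_mul hg1 (Submodule.Quotient.norm_mk_le _ _) (norm_nonneg _) zero_le_one
  · intro s hs
    have h1 : M'.mkQ s = 0 := (Submodule.Quotient.mk_eq_zero _).2 (M.le_topologicalClosure hs)
    change g (M'.mkQ s) = 0
    rw [h1, map_zero]
  · change d ≤ ‖g (M'.mkQ w)‖
    rw [hg2, RCLike.norm_ofReal, abs_of_nonneg (norm_nonneg _)]
    refine le_of_forall_pos_le_add fun ε hε => ?_
    obtain ⟨m, hm1, hm2⟩ := Submodule.Quotient.norm_mk_lt (M'.mkQ w) hε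
    have h2 : w - m ∈ M' := by
      have := (Submodule.Quotient.eq M').1 hm1.symm
      exact this
    have := hd' (w - m) h2
    rw [sub_sub_cancel] at this
    linarith

theorem exists_base (𝕜 E : Type*) [RCLike 𝕜] [NormedAddCommGroup E] [NormedSpace 𝕜 E]
    [SeparableSpace (StrongDual 𝕜 E)] (hinf : ¬ FiniteDimensional 𝕜 E) :
    ∃ (x : ℕ → E) (f : ℕ → StrongDual 𝕜 E), (∀ i j, f i (x j) = if i = j then 1 else 0) ∧
      Dense (Submodule.span 𝕜 (Set.range x) : Set E) ∧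
      Dense (Submodule.span 𝕜 (Set.range f) : Set (StrongDual 𝕜 E)) := by
  classical
  set b : ℕ → StrongDual 𝕜 E := denseSeq (StrongDual 𝕜 E) with hbdef
  have hbd : DenseRange b := denseRange_denseSeq _
  have ha : ∀ n, ∃ a : E, ‖a‖ ≤ 1 ∧ ‖b n‖ / 2 ≤ ‖b n a‖ := by
    intro n
    by_cases h0 : b n = 0
    · exact ⟨0, by simp, by simp [h0]⟩
    · have h1 : ‖b n‖ / 2 < ‖b n‖ := half_lt_self (norm_pos_iff.2 h0)
      obtain ⟨a, ha1, ha2⟩ := ContinuousLinearMap.exists_lt_apply_of_lt_opNorm (b n) h1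
      exact ⟨a, ha1.le, ha2.le⟩
  choose a ha1 ha2 using ha
  have hEt : ∀ v : E, v ≠ 0 → ∃ w : StrongDual 𝕜 E, w v ≠ 0 := by
    intro v hv
    obtain ⟨g, _, hg⟩ := exists_dual_vector 𝕜 v (norm_ne_zero_iff.2 hv)
    exact ⟨g, by rw [hg]; exact_mod_cast norm_ne_zero_iff.2 hv⟩
  set B : E →ₗ[𝕜] StrongDual 𝕜 E →ₗ[𝕜] 𝕜 :=
    LinearMap.mk₂ 𝕜 (fun v w => w v) (fun v v' w => map_add w v v') (fun c v w => map_smul w c v)
      (fun v w w' => rfl) (fun c v w => rfl) with hB
  have hBa : ∀ v w, B v w = w v := fun v w => rfl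
  have hfd : ¬ FiniteDimensional 𝕜 (StrongDual 𝕜 E) := by
    intro h
    apply hinf
    have hinj : Function.Injective B := by
      rw [← LinearMap.ker_eq_bot, LinearMap.ker_eq_bot']
      intro v hv
      by_contra hne
      obtain ⟨w, hw⟩ := hEt v hne
      exact hw (by rw [← hBa, hv]; rfl)
    exact Module.Finite.of_injective B hinj
  obtain ⟨x, f, h1, h2, h3⟩ := exists_seq B (fun v hv => hEt v hv) (fun w hw => by
    by_contra hc
    push Not at hc
    exact hw (ContinuousLinearMap.ext fun v => hc v)) hinf hfd a b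
  refine ⟨x, f, fun i j => ?_, ?_, ?_⟩
  · have := h1 j i
    rw [hBa] at this
    rw [this]
    simp only [eq_comm]
  · by_contra hnd
    rw [Dense] at hnd
    push Not at hnd
    obtain ⟨w, hw⟩ := hnd
    rw [Metric.mem_closure_iff] at hw
    push Not at hw
    obtain ⟨d, hd0, hd⟩ := hw
    obtain ⟨g, _, hg2, hg3⟩ := hb_sep (Submodule.span 𝕜 (Set.range x)) w d
      (fun s hs => by rw [← dist_eq_norm]; exact hd s hs)
    have hg0 : 0 < ‖g‖ := by
      rw [norm_pos_iff]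
      rintro rfl
      simp at hg3
      linarith
    obtain ⟨n, hn⟩ := hbd.exists_dist_lt g (show 0 < ‖g‖ / 4 by positivity)
    rw [dist_comm, dist_eq_norm] at hn
    have h4 : b n (a n) = (b n - g) (a n) := by
      rw [sub_apply, hg2 _ (h2 n), sub_zero]
    have h5 : ‖b n (a n)‖ ≤ ‖b n - g‖ := by
      rw [h4]
      exact ((b n - g).le_opNorm _).trans (by
        calc ‖b n - g‖ * ‖a n‖ ≤ ‖b n - g‖ * 1 := by gcongr; exact ha1 n
          _ = _ := mul_one _)
    have h6 : ‖g‖ ≤ ‖b n‖ + ‖b n - g‖ := by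
      calc ‖g‖ = ‖b n - (b n - g)‖ := by rw [sub_sub_cancel]
        _ ≤ _ := norm_sub_le _ _
    have h7 := ha2 n
    linarith
  · refine hbd.mono ?_
    rintro _ ⟨k, rfl⟩
    exact h3 k

theorem span_expand' {x : ℕ → E} {f : ℕ → StrongDual 𝕜 E}
    (hb : ∀ i j, f i (x j) = if i = j then 1 else 0) (S : Finset ℕ) {u : E}
    (hu : u ∈ Submodule.span 𝕜 (x '' (S : Set ℕ))) : u = ∑ a ∈ S, f a u • x a := by
  classical
  induction hu using Submodule.span_induction with
  | mem v hv =>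
    obtain ⟨i, hi, rfl⟩ := hv
    rw [Finset.sum_eq_single i]
    · rw [hb, if_pos rfl, one_smul]
    · intro j _ hj
      rw [hb, if_neg hj, zero_smul]
    · intro h
      exact absurd hi h
  | zero => simp
  | add a b _ _ iha ihb =>
    conv_lhs => rw [iha, ihb]
    rw [← Finset.sum_add_distrib]
    exact Finset.sum_congr rfl fun i _ => by rw [map_add, add_smul]
  | smul c a _ iha =>
    conv_lhs => rw [iha]
    rw [Finset.smul_sum]
    exact Finset.sum_congr rfl fun i _ => by rw [map_smul, smul_eq_mul, mul_smul]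

theorem core {x : ℕ → E} {f : ℕ → StrongDual 𝕜 E}
    (hb : ∀ i j, f i (x j) = if i = j then 1 else 0)
    (hdf : Dense (Submodule.span 𝕜 (Set.range f) : Set (StrongDual 𝕜 E)))
    {x' : ℕ → E} {f' : ℕ → StrongDual 𝕜 E}
    (hb' : ∀ i j, f' i (x' j) = if i = j then 1 else 0)
    {N P : ℕ → ℕ} {η : ℕ → ℝ} (hN : StrictMono N)
    (hg : ∀ k, Good x f (N k) (P k) (N (k + 1)) (η k)
      (1 / ((k + 1 : ℝ) * (1 + ∑ i ∈ Finset.range (N k), ‖x i‖ * ‖f i‖))))
    (hfe : ∀ k, ∀ j ∈ Ico (N k) (N (k + 1)), f' j = ev f (N k) (P k) (η k) j)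
    (S1 : ∀ k, ∀ i < N k, f i ∈ Submodule.span 𝕜 (f' '' Set.Iio (N k)))
    (S2 : ∀ k, ∀ i < N k, x' i ∈ Submodule.span 𝕜 (x '' Set.Iio (N k)))
    (S3 : ∀ k, ∀ i < N k, x i ∈ Submodule.span 𝕜 (x' '' Set.Iio (N k)))
    (M : Set ℕ) (y : StrongDual 𝕜 E) (hy : ∀ j ∉ M, y (x' j) = 0) :
    y ∈ closure (Submodule.span 𝕜 (f' '' M) : Set (StrongDual 𝕜 E)) := by
  classical
  rw [Metric.mem_closure_iff]
  intro ε hε
  set δ : ℝ := ε / 10 with hδ
  have hδ0 : 0 < δ := by positivity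
  obtain ⟨p, hp1, hp2⟩ := Metric.dense_iff.1 hdf y δ hδ0
  rw [mem_ball, dist_comm, dist_eq_norm] at hp1
  obtain ⟨m, hm⟩ := mem_span_Iio hp2
  set k : ℕ := max m ⌈(‖y‖ + 3 * δ) / δ⌉₊ with hk
  have hkN : k ≤ N k := hN.le_apply
  have hk2 : (‖y‖ + 3 * δ) / (k + 1) ≤ δ := by
    rw [div_le_iff₀ (by positivity)]
    have h1 : (‖y‖ + 3 * δ) / δ ≤ k :=
      (Nat.le_ceil _).trans (Nat.cast_le.2 (le_max_right _ _))
    rw [div_le_iff₀ hδ0] at h1
    nlinarith
  have hpN : p ∈ Submodule.span 𝕜 (f '' Set.Iio (N k)) :=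
    Submodule.span_mono (Set.image_mono (Set.Iio_subset_Iio ((le_max_left _ _).trans hkN))) hm
  have hG := hg k
  set C : ℝ := ∑ i ∈ Finset.range (N k), ‖x i‖ * ‖f i‖ with hC
  have hC0 : 0 ≤ C := Finset.sum_nonneg fun i _ => by positivity
  set S : StrongDual 𝕜 E := ∑ i ∈ Finset.range (N k), y (x i) • f i with hS
  have hSf : S ∈ Submodule.span 𝕜 (f '' Set.Iio (N k)) :=
    Submodule.sum_mem _ fun i hi => Submodule.smul_mem _ _ (Submodule.subset_span
      ⟨i, Finset.mem_range.1 hi, rfl⟩)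
  have hSn : ‖S‖ ≤ C * ‖y‖ := by
    rw [hS, hC, Finset.sum_mul]
    refine (norm_sum_le _ _).trans (Finset.sum_le_sum fun i _ => ?_)
    rw [norm_smul]
    calc ‖y (x i)‖ * ‖f i‖ ≤ (‖y‖ * ‖x i‖) * ‖f i‖ := by gcongr; exact y.le_opNorm _
      _ = _ := by ring
  have hSx : ∀ i < N k, S (x i) = y (x i) := by
    intro i hi
    rw [hS, _root_.sum_apply, Finset.sum_eq_single i]
    · rw [smul_apply, hb, if_pos rfl, smul_eq_mul, mul_one]
    · intro j _ hj
      rw [smul_apply, hb, if_neg hj, smul_eq_mul, mul_zero]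
    · intro h
      exact absurd (Finset.mem_range.2 hi) h
  have hSx' : ∀ i < N k, S (x' i) = y (x' i) := by
    intro i hi
    have h1 := S2 k i hi
    rw [← sub_eq_zero]
    have h2 : ∀ u ∈ Submodule.span 𝕜 (x '' Set.Iio (N k)), S u - y u = 0 := by
      intro u hu
      induction hu using Submodule.span_induction with
      | mem v hv =>
        obtain ⟨i, hi, rfl⟩ := hv
        rw [hSx i hi, sub_self]
      | zero => rw [map_zero, map_zero, sub_self]
      | add a b _ _ iha ihb =>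
        rw [map_add, map_add]
        linear_combination iha + ihb
      | smul c a _ iha =>
        rw [map_smul, map_smul, smul_eq_mul, smul_eq_mul]
        linear_combination c * iha
    exact h2 _ h1
  have hle : Submodule.span 𝕜 (f '' Set.Iio (N k)) ≤ Submodule.span 𝕜 (f' '' Set.Iio (N k)) := by
    rw [Submodule.span_le]
    rintro _ ⟨i, hi, rfl⟩
    exact S1 k i hi
  have hSf' : S ∈ Submodule.span 𝕜 (f' '' ((Finset.range (N k) : Finset ℕ) : Set ℕ)) := by
    rw [Finset.coe_range]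
    exact hle hSf
  have hSM : S ∈ Submodule.span 𝕜 (f' '' M) := by
    rw [span_expand hb' _ hSf']
    refine Submodule.sum_mem _ fun j hj => ?_
    rw [hSx' j (Finset.mem_range.1 hj)]
    by_cases hjM : j ∈ M
    · exact Submodule.smul_mem _ _ (Submodule.subset_span ⟨j, hjM, rfl⟩)
    · rw [hy j hjM, z_smul]
      exact Submodule.zero_mem _
  set B : Finset ℕ := (Ico (N k) (N (k + 1))).filter (· ∈ M) with hB
  have hBs : B ⊆ Ico (N k) (N (k + 1)) := Finset.filter_subset _ _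
  have hBM : ∀ j ∈ B, j ∈ M := fun j hj => (Finset.mem_filter.1 hj).2
  have hGB : Submodule.span 𝕜 (ev f (N k) (P k) (η k) '' (B : Set ℕ))
      ≤ Submodule.span 𝕜 (f' '' M) := by
    refine Submodule.span_mono ?_
    rintro _ ⟨j, hj, rfl⟩
    exact ⟨j, hBM j hj, hfe k j (hBs hj)⟩
  by_cases hcard : P k - N k ≤ B.card
  · obtain ⟨z, hz1, hz2, hz3⟩ := hG.c1 (((δ⁻¹ : ℝ) : 𝕜) • (y - p)) (by
      rw [norm_smul, RCLike.norm_ofReal, abs_of_pos (inv_pos.2 hδ0)]
      rw [inv_mul_le_iff₀ hδ0, mul_one]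
      exact hp1.le)
    set q : StrongDual 𝕜 E := p + ((δ : ℝ) : 𝕜) • z with hq
    have hqy : ‖y - q‖ ≤ 3 * δ := by
      have h1 : y - q = (y - p) - ((δ : ℝ) : 𝕜) • z := by rw [hq]; abel
      rw [h1]
      refine (norm_sub_le _ _).trans ?_
      rw [norm_smul, RCLike.norm_ofReal, abs_of_pos hδ0]
      nlinarith
    have hqx : ∀ i < N k, q (x i) = y (x i) := by
      intro i hi
      rw [hq, add_apply, smul_apply, hz3 i hi, smul_apply, sub_apply, smul_eq_mul, smul_eq_mul,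
        ← mul_assoc, ← RCLike.ofReal_mul, mul_inv_cancel₀ hδ0.ne', RCLike.ofReal_one, one_mul]
      ring
    set v : StrongDual 𝕜 E := q - S with hv
    have hvx : ∀ i < N k, v (x i) = 0 := by
      intro i hi
      rw [hv, sub_apply, hqx i hi, hSx i hi, sub_self]
    have hNP : N k ≤ P k := hG.hNP.le
    have hvP : v ∈ Submodule.span 𝕜 (f '' ((Finset.range (P k) : Finset ℕ) : Set ℕ)) := by
      rw [Finset.coe_range]
      refine Submodule.sub_mem _ (Submodule.add_mem _ ?_ (Submodule.smul_mem _ _ hz1)) ?_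
      · exact Submodule.span_mono (Set.image_mono (Set.Iio_subset_Iio hNP)) hpN
      · exact Submodule.span_mono (Set.image_mono (Set.Iio_subset_Iio hNP)) hSf
    have hvI : v ∈ Submodule.span 𝕜 (f '' ((Ico (N k) (P k) : Finset ℕ) : Set ℕ)) := by
      rw [span_expand hb _ hvP]
      refine Submodule.sum_mem _ fun j hj => ?_
      by_cases hjN : j < N k
      · rw [hvx j hjN, z_smul]
        exact Submodule.zero_mem _
      · refine Submodule.smul_mem _ _ (Submodule.subset_span ⟨j, ?_, rfl⟩)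
        rw [Finset.mem_coe, Finset.mem_Ico]
        exact ⟨not_lt.1 hjN, Finset.mem_range.1 hj⟩
    obtain ⟨v', hv'1, hv'2⟩ := hG.c2 B hBs hcard v hvI
    refine ⟨S + v', Submodule.add_mem _ hSM (hGB hv'1), ?_⟩
    rw [dist_eq_norm]
    have h1 : y - (S + v') = (y - q) + (v - v') := by rw [hv]; abel
    have h2 : ‖v‖ ≤ (1 + C) * (‖y‖ + 3 * δ) := by
      have h3 : ‖q‖ ≤ ‖y‖ + 3 * δ := by
        calc ‖q‖ = ‖y - (y - q)‖ := by rw [sub_sub_cancel]
          _ ≤ ‖y‖ + ‖y - q‖ := norm_sub_le _ _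
          _ ≤ _ := by linarith
      calc ‖v‖ ≤ ‖q‖ + ‖S‖ := norm_sub_le _ _
        _ ≤ (‖y‖ + 3 * δ) + C * ‖y‖ := add_le_add h3 hSn
        _ ≤ (1 + C) * (‖y‖ + 3 * δ) := by nlinarith [mul_nonneg hC0 hδ0.le]
    have h3 : 1 / ((k + 1 : ℝ) * (1 + C)) * ‖v‖ ≤ δ := by
      calc 1 / ((k + 1 : ℝ) * (1 + C)) * ‖v‖
          ≤ 1 / ((k + 1 : ℝ) * (1 + C)) * ((1 + C) * (‖y‖ + 3 * δ)) := by gcongr
        _ = (‖y‖ + 3 * δ) / (k + 1) := by field_simp
        _ ≤ δ := hk2
    rw [h1]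
    calc ‖(y - q) + (v - v')‖ ≤ ‖y - q‖ + ‖v - v'‖ := norm_add_le _ _
      _ ≤ 3 * δ + δ := add_le_add hqy (hv'2.trans h3)
      _ < ε := by rw [hδ]; linarith
  · by_contra hcon
    push Not at hcon
    obtain ⟨g, hg1, hg2, hg3⟩ := hb_sep (Submodule.span 𝕜 (ev f (N k) (P k) (η k) '' (B : Set ℕ)))
      (y - S) ε (fun s hs => by
        have h1 := hcon (S + s) (Submodule.add_mem _ hSM (hGB hs))
        rw [dist_eq_norm] at h1
        rwa [sub_sub])
    obtain ⟨u, hu1, hu2, hu3, hu4⟩ := hG.c3 B hBs (by omega) g hg1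
      (fun j hj => hg2 _ (Submodule.subset_span ⟨j, hj, rfl⟩))
    have hu1' : u ∈ Submodule.span 𝕜 (x' '' ((Finset.range (N (k + 1)) : Finset ℕ) : Set ℕ)) := by
      rw [Finset.coe_range]
      refine (Submodule.span_le.2 ?_) hu1
      rintro _ ⟨i, hi, rfl⟩
      exact S3 (k + 1) i hi
    have hyu : y u = S u := by
      rw [← sub_eq_zero, ← sub_apply]
      rw [span_expand' hb' _ hu1', map_sum]
      refine Finset.sum_eq_zero fun j hj => ?_
      rw [map_smul, smul_eq_mul, sub_apply]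
      by_cases hjN : j < N k
      · rw [hSx' j hjN, sub_self, mul_zero]
      · have hjI : j ∈ Ico (N k) (N (k + 1)) :=
          Finset.mem_Ico.2 ⟨not_lt.1 hjN, Finset.mem_range.1 hj⟩
        by_cases hjM : j ∈ M
        · have hjB : j ∈ B := Finset.mem_filter.2 ⟨hjI, hjM⟩
          rw [hfe k j hjI, hu4 j hjB, zero_mul]
        · have hS0 : S (x' j) = 0 := by
            rw [span_expand hb' _ hSf', _root_.sum_apply]
            refine Finset.sum_eq_zero fun i hi => ?_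
            rw [smul_apply, hb', if_neg, smul_eq_mul, mul_zero]
            have := Finset.mem_range.1 hi
            omega
          rw [hy j hjM, hS0, sub_self, mul_zero]
    have hgf : ∀ w ∈ Submodule.span 𝕜 (f '' Set.Iio (N k)), g w = w u := by
      intro w hw
      induction hw using Submodule.span_induction with
      | mem v hv =>
        obtain ⟨i, hi, rfl⟩ := hv
        exact (hu3 i hi).symm
      | zero => rw [map_zero, zero_apply]
      | add a b _ _ iha ihb =>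
        rw [map_add, add_apply, iha, ihb]
      | smul c a _ iha =>
        rw [map_smul, smul_apply, iha]
    have h1 : g (y - S) = g (y - p) - (y - p) u := by
      have h2 : g (p - S) = (p - S) u := hgf _ (Submodule.sub_mem _ hpN hSf)
      have h3 : y - S = (y - p) + (p - S) := by abel
      rw [h3, map_add, h2, sub_apply, sub_apply, hyu]
      ring
    have h2 : ‖g (y - S)‖ ≤ 5 * δ := by
      rw [h1]
      calc ‖g (y - p) - (y - p) u‖ ≤ ‖g (y - p)‖ + ‖(y - p) u‖ := norm_sub_le _ _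
        _ ≤ ‖g‖ * ‖y - p‖ + ‖y - p‖ * ‖u‖ := add_le_add (g.le_opNorm _) ((y - p).le_opNorm _)
        _ ≤ 1 * δ + δ * 4 := by gcongr
        _ = 5 * δ := by ring
    have : ε ≤ 5 * δ := hg3.trans h2
    rw [hδ] at this
    linarith

end Pool.Agent.X205.SMB
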