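import Mathlib
import Pool.Agent.X205.SMB.Main

/-!
# The final system
-/

set_option autoImplicit false

open Filter Topology Metric Finset TopologicalSpace

namespace Pool.Agent.X205.SMB

variable {𝕜 E : Type*} [RCLike 𝕜] [NormedAddCommGroup E] [NormedSpace 𝕜 E]

/-- the new vectors of the block -/
noncomputable def xe (𝕜 : Type*) {E : Type*} [RCLike 𝕜] [NormedAddCommGroup E] [NormedSpace 𝕜 E]
    (x : ℕ → E) (P N' : ℕ) (η : ℝ) (a : ℕ) : E :=
  if a < P then x a - ∑ j ∈ Ico P N', ((η : 𝕜)⁻¹ * W 𝕜 P j a) • x j else (η : 𝕜)⁻¹ • x a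

theorem wv_x {x : ℕ → E} {f : ℕ → StrongDual 𝕜 E}
    (hb : ∀ i j, f i (x j) = if i = j then 1 else 0) (N P i a : ℕ) :
    wv f N P i (x a) = if a ∈ Ico N P then W 𝕜 P i a else 0 := by
  classical
  rw [wv_apply]
  simp only [hb, mul_ite, mul_one, mul_zero]
  rw [Finset.sum_ite_eq']

theorem ev_x {x : ℕ → E} {f : ℕ → StrongDual 𝕜 E}
    (hb : ∀ i j, f i (x j) = if i = j then 1 else 0) (N P : ℕ) (η : ℝ) (i a : ℕ) :
    ev f N P η i (x a) = (if a ∈ Ico N P then W 𝕜 P i a else 0) +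
      (if i < P then 0 else if i = a then (η : 𝕜) else 0) := by
  rw [ev, add_apply, wv_x hb]
  congr 1
  split_ifs with h1 h2
  · rfl
  · rw [smul_apply, hb, if_pos h2, smul_eq_mul, mul_one]
  · rw [smul_apply, hb, if_neg h2, smul_eq_mul, mul_zero]

theorem block_bio {x : ℕ → E} {f : ℕ → StrongDual 𝕜 E}
    (hb : ∀ i j, f i (x j) = if i = j then 1 else 0) (N P N' : ℕ) (η : ℝ) (hη : 0 < η)
    (i a : ℕ) (hi : i ∈ Ico N N') (ha : a ∈ Ico N N') :
    ev f N P η i (xe 𝕜 x P N' η a) = if i = a then 1 else 0 := by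
  classical
  have hη' : (η : 𝕜) ≠ 0 := by
    rw [Ne, RCLike.ofReal_eq_zero]
    exact hη.ne'
  rw [Finset.mem_Ico] at hi ha
  by_cases haP : a < P
  · rw [xe, if_pos haP, map_sub, map_sum, ev_x hb]
    have h1 : a ∈ Ico N P := Finset.mem_Ico.2 ⟨ha.1, haP⟩
    rw [if_pos h1]
    have h2 : ∑ j ∈ Ico P N', ev f N P η i (((η : 𝕜)⁻¹ * W 𝕜 P j a) • x j)
        = ∑ j ∈ Ico P N', if i = j then W 𝕜 P j a else 0 := by
      refine Finset.sum_congr rfl fun j hj => ?_
      rw [Finset.mem_Ico] at hj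
      have h3 : j ∉ Ico N P := by
        rw [Finset.mem_Ico]
        omega
      rw [map_smul, ev_x hb, if_neg h3, zero_add, smul_eq_mul]
      by_cases hij : i = j
      · have h4 : ¬ i < P := by omega
        rw [if_neg h4, if_pos hij, if_pos hij]
        field_simp
      · rw [if_neg hij, if_neg hij, ite_self, mul_zero]
    rw [h2, Finset.sum_ite_eq]
    by_cases hiP : i < P
    · have h4 : i ∉ Ico P N' := by
        rw [Finset.mem_Ico]
        omega
      rw [if_pos hiP, if_neg h4, add_zero, sub_zero, W, if_pos hiP]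
    · have h4 : i ∈ Ico P N' := by
        rw [Finset.mem_Ico]
        omega
      have h5 : i ≠ a := by omega
      rw [if_neg hiP, if_neg h5, if_pos h4, if_neg h5, add_zero, sub_self]
  · have h1 : a ∉ Ico N P := by
      rw [Finset.mem_Ico]
      omega
    rw [xe, if_neg haP, map_smul, ev_x hb, if_neg h1, zero_add, smul_eq_mul]
    by_cases hia : i = a
    · have h4 : ¬ i < P := by omega
      rw [if_neg h4, if_pos hia, if_pos hia, inv_mul_cancel₀ hη']
    · rw [if_neg hia, if_neg hia, ite_self, mul_zero]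

theorem ev_mem (f : ℕ → StrongDual 𝕜 E) {N P N' : ℕ} (hPN : P < N') (η : ℝ) (j : ℕ)
    (hj : j ∈ Ico N N') : ev f N P η j ∈ Submodule.span 𝕜 (f '' ((Ico N N' : Finset ℕ) : Set ℕ)) := by
  rw [ev, wv]
  refine Submodule.add_mem _ (Submodule.sum_mem _ fun a ha => Submodule.smul_mem _ _
    (Submodule.subset_span ⟨a, ?_, rfl⟩)) ?_
  · rw [Finset.mem_Ico] at ha
    rw [Finset.mem_coe, Finset.mem_Ico]
    omega
  · split_ifs
    · exact Submodule.zero_mem _
    · exact Submodule.smul_mem _ _ (Submodule.subset_span ⟨j, hj, rfl⟩)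

theorem xe_mem (x : ℕ → E) {N P N' : ℕ} (hNP : N < P) (η : ℝ) (a : ℕ)
    (ha : a ∈ Ico N N') :
    xe 𝕜 x P N' η a ∈ Submodule.span 𝕜 (x '' ((Ico N N' : Finset ℕ) : Set ℕ)) := by
  rw [xe]
  have h1 : x a ∈ Submodule.span 𝕜 (x '' ((Ico N N' : Finset ℕ) : Set ℕ)) :=
    Submodule.subset_span ⟨a, ha, rfl⟩
  split_ifs
  · refine Submodule.sub_mem _ h1 (Submodule.sum_mem _ fun j hj => Submodule.smul_mem _ _
      (Submodule.subset_span ⟨j, ?_, rfl⟩))
    rw [Finset.mem_Ico] at hj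
    rw [Finset.mem_coe, Finset.mem_Ico]
    omega
  · exact Submodule.smul_mem _ _ h1

theorem f_mem (f : ℕ → StrongDual 𝕜 E) {N P N' : ℕ} (hPN : P < N') (η : ℝ) (hη : 0 < η)
    (j : ℕ) (hj : j ∈ Ico N N') :
    f j ∈ Submodule.span 𝕜 (ev f N P η '' ((Ico N N' : Finset ℕ) : Set ℕ)) := by
  classical
  have hη' : (η : 𝕜) ≠ 0 := by
    rw [Ne, RCLike.ofReal_eq_zero]
    exact hη.ne'
  have h1 : ∀ i ∈ Ico N P, ev f N P η i = f i := by
    intro i hi
    have hiP : i < P := (Finset.mem_Ico.1 hi).2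
    rw [ev, if_pos hiP, add_zero, wv, Finset.sum_eq_single i]
    · rw [W, if_pos hiP, if_pos rfl, one_smul]
    · intro b _ hb
      rw [W, if_pos hiP, if_neg (Ne.symm hb), z_smul]
    · intro h
      exact absurd hi h
  have h2 : ∀ i ∈ Ico N P, f i ∈ Submodule.span 𝕜 (ev f N P η '' ((Ico N N' : Finset ℕ) : Set ℕ)) := by
    intro i hi
    refine Submodule.subset_span ⟨i, ?_, h1 i hi⟩
    rw [Finset.mem_Ico] at hi
    rw [Finset.mem_coe, Finset.mem_Ico]
    omega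
  by_cases hjP : j < P
  · exact h2 j (Finset.mem_Ico.2 ⟨(Finset.mem_Ico.1 hj).1, hjP⟩)
  · have h3 : f j = (η : 𝕜)⁻¹ • (ev f N P η j - wv f N P j) := by
      rw [ev, if_neg hjP, add_sub_cancel_left, smul_smul, inv_mul_cancel₀ hη', one_smul]
    rw [h3]
    refine Submodule.smul_mem _ _ (Submodule.sub_mem _ (Submodule.subset_span ⟨j, hj, rfl⟩) ?_)
    rw [wv]
    exact Submodule.sum_mem _ fun a ha => Submodule.smul_mem _ _ (h2 a ha)

theorem x_mem (x : ℕ → E) {N P N' : ℕ} (hNP : N < P) (η : ℝ) (hη : 0 < η)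
    (a : ℕ) (ha : a ∈ Ico N N') :
    x a ∈ Submodule.span 𝕜 (xe 𝕜 x P N' η '' ((Ico N N' : Finset ℕ) : Set ℕ)) := by
  classical
  have hη' : (η : 𝕜) ≠ 0 := by
    rw [Ne, RCLike.ofReal_eq_zero]
    exact hη.ne'
  have h1 : ∀ j ∈ Ico P N', x j ∈ Submodule.span 𝕜 (xe 𝕜 x P N' η '' ((Ico N N' : Finset ℕ) : Set ℕ)) := by
    intro j hj
    have hjP : ¬ j < P := not_lt.2 (Finset.mem_Ico.1 hj).1
    have h2 : x j = (η : 𝕜) • xe 𝕜 x P N' η j := by
      rw [xe, if_neg hjP, smul_smul, mul_inv_cancel₀ hη', one_smul]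
    rw [h2]
    refine Submodule.smul_mem _ _ (Submodule.subset_span ⟨j, ?_, rfl⟩)
    rw [Finset.mem_Ico] at hj
    rw [Finset.mem_coe, Finset.mem_Ico]
    omega
  by_cases haP : a < P
  · have h3 : x a = xe 𝕜 x P N' η a + ∑ j ∈ Ico P N', ((η : 𝕜)⁻¹ * W 𝕜 P j a) • x j := by
      rw [xe, if_pos haP, sub_add_cancel]
    rw [h3]
    exact Submodule.add_mem _ (Submodule.subset_span ⟨a, ha, rfl⟩)
      (Submodule.sum_mem _ fun j hj => Submodule.smul_mem _ _ (h1 j hj))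
  · refine h1 a ?_
    rw [Finset.mem_Ico] at ha ⊢
    omega

theorem exists_blk {N : ℕ → ℕ} (hN : StrictMono N) (hN0 : N 0 = 0) :
    ∃ blk : ℕ → ℕ, (∀ j, j ∈ Ico (N (blk j)) (N (blk j + 1))) ∧
      ∀ j k, j ∈ Ico (N k) (N (k + 1)) → blk j = k := by
  have h1 : ∀ j, ∃ k, j ∈ Ico (N k) (N (k + 1)) := by
    intro j
    have hex : ∃ k, j < N (k + 1) := ⟨j, (Nat.lt_succ_self j).trans_le hN.le_apply⟩
    classical
    refine ⟨Nat.find hex, Finset.mem_Ico.2 ⟨?_, Nat.find_spec hex⟩⟩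
    by_cases h0 : Nat.find hex = 0
    · rw [h0, hN0]
      exact Nat.zero_le _
    · have h2 := Nat.find_min hex (m := Nat.find hex - 1) (by omega)
      rw [Nat.sub_add_cancel (Nat.one_le_iff_ne_zero.2 h0)] at h2
      exact not_lt.1 h2
  choose blk hblk using h1
  refine ⟨blk, hblk, fun j k hj => ?_⟩
  have h1 := Finset.mem_Ico.1 (hblk j)
  have h2 := Finset.mem_Ico.1 hj
  rcases lt_trichotomy (blk j) k with h | h | h
  · have := hN.monotone (show blk j + 1 ≤ k from h)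
    omega
  · exact h
  · have := hN.monotone (show k + 1 ≤ blk j from h)
    omega

theorem glob {V : Type*} [AddCommGroup V] [Module 𝕜 V] {N : ℕ → ℕ} (hN : StrictMono N)
    (hN0 : N 0 = 0) (u u' : ℕ → V)
    (h : ∀ l, ∀ i ∈ Ico (N l) (N (l + 1)),
      u i ∈ Submodule.span 𝕜 (u' '' ((Ico (N l) (N (l + 1)) : Finset ℕ) : Set ℕ))) (k : ℕ) :
    ∀ i < N k, u i ∈ Submodule.span 𝕜 (u' '' Set.Iio (N k)) := by
  intro i hi
  obtain ⟨blk, hblk, _⟩ := exists_blk hN hN0
  have h1 := h (blk i) i (hblk i)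
  refine Submodule.span_mono (Set.image_mono ?_) h1
  intro j hj
  rw [Finset.mem_coe, Finset.mem_Ico] at hj
  have h2 := Finset.mem_Ico.1 (hblk i)
  have h3 : blk i + 1 ≤ k := by
    by_contra hc
    have := hN.monotone (show k ≤ blk i by omega)
    omega
  have := hN.monotone h3
  exact Set.mem_Iio.2 (by omega)

theorem span_zero {x : ℕ → E} {f : ℕ → StrongDual 𝕜 E}
    (hb : ∀ i j, f i (x j) = if i = j then 1 else 0) {A C : Set ℕ} (hAC : Disjoint A C)
    {v : StrongDual 𝕜 E} {u : E} (hv : v ∈ Submodule.span 𝕜 (f '' A))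
    (hu : u ∈ Submodule.span 𝕜 (x '' C)) : v u = 0 := by
  induction hv using Submodule.span_induction with
  | mem v hv =>
    obtain ⟨i, hi, rfl⟩ := hv
    induction hu using Submodule.span_induction with
    | mem u hu =>
      obtain ⟨j, hj, rfl⟩ := hu
      rw [hb, if_neg]
      rintro rfl
      exact Set.disjoint_left.1 hAC hi hj
    | zero => rw [map_zero]
    | add a b _ _ iha ihb => rw [map_add, iha, ihb, add_zero]
    | smul c a _ iha => rw [map_smul, iha, smul_zero]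
  | zero => rw [zero_apply]
  | add a b _ _ iha ihb => rw [add_apply, iha, ihb, add_zero]
  | smul c a _ iha => rw [smul_apply, iha, smul_zero]

theorem main (𝕜 E : Type*) [RCLike 𝕜] [NormedAddCommGroup E] [NormedSpace 𝕜 E]
    [SeparableSpace (StrongDual 𝕜 E)] (hinf : ¬ FiniteDimensional 𝕜 E) :
    ∃ (x : ℕ → E) (f : ℕ → StrongDual 𝕜 E), (∀ i j, f i (x j) = if i = j then 1 else 0) ∧
      ∀ (M : Set ℕ) (y : StrongDual 𝕜 E), (∀ j ∉ M, y (x j) = 0) →
        y ∈ closure (Submodule.span 𝕜 (f '' M) : Set (StrongDual 𝕜 E)) := by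
  classical
  obtain ⟨x, f, hb, hdx, hdf⟩ := exists_base 𝕜 E hinf
  choose P N' η hgood using fun (k N : ℕ) => exists_good hb hdx hdf N
    (1 / ((k + 1 : ℝ) * (1 + ∑ i ∈ Finset.range N, ‖x i‖ * ‖f i‖))) (by
      have : 0 ≤ ∑ i ∈ Finset.range N, ‖x i‖ * ‖f i‖ := Finset.sum_nonneg fun i _ => by positivity
      positivity)
  let N : ℕ → ℕ := fun k => Nat.rec 0 (fun k n => N' k n) k
  have hN0 : N 0 = 0 := rfl
  have hg : ∀ k, Good x f (N k) (P k (N k)) (N (k + 1)) (η k (N k))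
    (1 / ((k + 1 : ℝ) * (1 + ∑ i ∈ Finset.range (N k), ‖x i‖ * ‖f i‖))) := fun k => hgood k (N k)
  have hN : StrictMono N := strictMono_nat_of_lt_succ fun k => (hg k).hNP.trans (hg k).hPN
  obtain ⟨blk, hblk, hblk'⟩ := exists_blk hN hN0
  set P' : ℕ → ℕ := fun k => P k (N k) with hP'
  set η' : ℕ → ℝ := fun k => η k (N k) with hη'
  set f' : ℕ → StrongDual 𝕜 E := fun j => ev f (N (blk j)) (P' (blk j)) (η' (blk j)) j with hf'
  set x' : ℕ → E := fun j => xe 𝕜 x (P' (blk j)) (N (blk j + 1)) (η' (blk j)) j with hx'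
  have hfe : ∀ k, ∀ j ∈ Ico (N k) (N (k + 1)), f' j = ev f (N k) (P' k) (η' k) j := by
    intro k j hj
    rw [hf']
    simp only [hblk' j k hj]
  have hxe : ∀ k, ∀ j ∈ Ico (N k) (N (k + 1)), x' j = xe 𝕜 x (P' k) (N (k + 1)) (η' k) j := by
    intro k j hj
    rw [hx']
    simp only [hblk' j k hj]
  have hfI : ∀ k, f' '' ((Ico (N k) (N (k + 1)) : Finset ℕ) : Set ℕ)
      = ev f (N k) (P' k) (η' k) '' ((Ico (N k) (N (k + 1)) : Finset ℕ) : Set ℕ) := fun k =>
    Set.image_congr fun j hj => hfe k j hj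
  have hxI : ∀ k, x' '' ((Ico (N k) (N (k + 1)) : Finset ℕ) : Set ℕ)
      = xe 𝕜 x (P' k) (N (k + 1)) (η' k) '' ((Ico (N k) (N (k + 1)) : Finset ℕ) : Set ℕ) := fun k =>
    Set.image_congr fun j hj => hxe k j hj
  have hb' : ∀ i j, f' i (x' j) = if i = j then 1 else 0 := by
    intro i j
    by_cases hij : blk i = blk j
    · rw [hfe (blk j) i (hij ▸ hblk i), hxe (blk j) j (hblk j)]
      exact block_bio hb _ _ _ _ (hg (blk j)).hη i j (hij ▸ hblk i) (hblk j)
    · have hne : i ≠ j := fun h => hij (by rw [h])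
      rw [if_neg hne]
      have h1 : f' i ∈ Submodule.span 𝕜 (f '' ((Ico (N (blk i)) (N (blk i + 1)) : Finset ℕ) : Set ℕ)) := by
        rw [hfe (blk i) i (hblk i)]
        exact ev_mem f (hg (blk i)).hPN _ i (hblk i)
      have h2 : x' j ∈ Submodule.span 𝕜 (x '' ((Ico (N (blk j)) (N (blk j + 1)) : Finset ℕ) : Set ℕ)) := by
        rw [hxe (blk j) j (hblk j)]
        exact xe_mem x (hg (blk j)).hNP _ j (hblk j)
      refine span_zero hb ?_ h1 h2
      rw [Set.disjoint_left]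
      intro l hl1 hl2
      exact hij ((hblk' l (blk i) hl1).symm.trans (hblk' l (blk j) hl2))
  refine ⟨x', f', hb', fun M y hy => ?_⟩
  refine core hb hdf hb' hN hg hfe (glob hN hN0 f f' fun l i hi => ?_)
    (glob hN hN0 x' x fun l i hi => ?_) (glob hN hN0 x x' fun l i hi => ?_) M y hy
  · rw [hfI l]
    exact f_mem f (hg l).hPN _ (hg l).hη i hi
  · rw [hxe l i hi]
    exact xe_mem x (hg l).hNP _ i hi
  · rw [hxI l]
    exact x_mem x (hg l).hNP _ (hg l).hη i hi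

end Pool.Agent.X205.SMB
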